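import Pool.Agent.H12.FS.G

/-!
# Distortion elements in automorphism groups of one-sided full shifts

For every sufficiently large finite alphabet the automorphism group of the one-sided full shift
contains a distortion element; moreover the word length of its powers is `O(n ^ α)` with `α < 1`.

Idea of the proof: a reversible one-way cellular system that simulates itself. A letter carries a
label and four registers; each generator executes, on every block of consistently labelled cells,
one instruction of the program of a generator. All programs are built from commutators in the perfect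
group `A₅` (so that no work space has to be initialised), every content of the cells is meaningful,
and the only walls are inconsistencies of the labels. One step of the simulated system takes `T`
steps, the distorted element `f` executes one instruction every `Λ` steps, while a word of length `m`
for `fⁿ` can be turned into a word of length at most `4 T (T + 2 h) m + 2 T` for `f ^ (Λ T n)`; as
`Λ > 4 (T + 2 h)`, the word length grows sublinearly.
-/

set_option autoImplicit false

theorem Pool.Agent.Results.MP_e59edf_an.FullShift.result :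
    ∃ k₀ : ℕ, ∀ k : ℕ, k₀ ≤ k →
      ∃ (S : Finset (Equiv.Perm (ℕ → Fin k))) (g : Equiv.Perm (ℕ → Fin k)), g ∈ S ∧
        (∀ h ∈ S, Continuous (h : (ℕ → Fin k) → (ℕ → Fin k)) ∧
          Continuous (h⁻¹ : Equiv.Perm (ℕ → Fin k)) ∧
          ∀ x : ℕ → Fin k, h (fun n => x (n + 1)) = fun n => h x (n + 1)) ∧
        ¬ IsOfFinOrder g ∧
        (∀ ε : ℝ, 0 < ε → ∃ N : ℕ, ∀ n : ℕ, N ≤ n →
          ∃ l : List (Equiv.Perm (ℕ → Fin k)), (l.length : ℝ) ≤ ε * n ∧
            (∀ h ∈ l, h ∈ S ∨ h⁻¹ ∈ S) ∧ l.prod = g ^ n) ∧
        ∃ α : ℝ, α < 1 ∧ ∃ A : ℝ, ∀ n : ℕ, 1 ≤ n →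
          ∃ l : List (Equiv.Perm (ℕ → Fin k)), (l.length : ℝ) ≤ A * (n : ℝ) ^ α ∧
            (∀ h ∈ l, h ∈ S ∨ h⁻¹ ∈ S) ∧ l.prod = g ^ n := by
  obtain ⟨k₀, hk₀⟩ := Pool.H12FS.full_shift_distortion
  refine ⟨k₀, fun k hk => ?_⟩
  obtain ⟨S, g, hg, hS, hord, α, hα0, hα1, A, hA, hw⟩ := hk₀ k hk
  refine ⟨S, g, hg, fun h hh => ⟨(hS h hh).1, ?_, (hS h hh).2⟩, hord, ?_, α, hα1, A, fun n _ => hw n⟩
  · exact (hS h hh).1.continuous_symm_of_equiv_compact_to_t2
  · intro ε hε
    have hlim : Filter.Tendsto (fun n : ℕ => A * (n : ℝ) ^ (-(1 - α))) Filter.atTop (nhds (A * 0)) := by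
      apply Filter.Tendsto.const_mul
      exact (tendsto_rpow_neg_atTop (by linarith)).comp tendsto_natCast_atTop_atTop
    rw [mul_zero] at hlim
    have hev := (hlim.eventually (gt_mem_nhds hε))
    obtain ⟨N, hN⟩ := Filter.eventually_atTop.mp hev
    refine ⟨max N 1, fun n hn => ?_⟩
    obtain ⟨l, hl, h1, h2⟩ := hw n
    refine ⟨l, hl.trans ?_, h1, h2⟩
    have hn0 : (0 : ℝ) < n := by
      have : 1 ≤ n := (le_max_right N 1).trans hn
      exact_mod_cast this
    have h3 := hN n ((le_max_left N 1).trans hn)
    have h4 : (n : ℝ) ^ α = (n : ℝ) ^ (-(1 - α)) * n := by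
      have : α = -(1 - α) + 1 := by ring
      conv_lhs => rw [this]
      rw [Real.rpow_add hn0, Real.rpow_one]
    rw [h4, ← mul_assoc]
    exact mul_le_mul_of_nonneg_right h3.le hn0.le
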